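import Pool.Agent.ColGame.Proof

namespace Pool.Agent.Results.MP_caab7c_co.ZhuGame

open Pool.Agent.ColGame

/-- A graph with 55 vertices: Alice wins the colouring game with 4 colours, Bob wins it with 5. -/
theorem result : ∃ (V : Type) (_ : Fintype V) (_ : DecidableEq V) (G : SimpleGraph V),
    Fintype.card V = 55 ∧ AliceWins G 4 ∧ BobWins G 5 :=
  main

end Pool.Agent.Results.MP_caab7c_co.ZhuGame
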